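import Pool.Agent.Q234.KG.Stm

set_option autoImplicit false

open scoped BigOperators
open Finset Pool.Agent.TH235.PP Pool.Agent.Q234.KG

namespace Pool.Agent.Q266.KG.ST

/-- the corner of the box -/
def c0 {n : ℕ} (hn : 1 ≤ n) : Fin n × Fin n := (⟨0, hn⟩, ⟨0, hn⟩)

lemma c0_iff {n : ℕ} (hn : 1 ≤ n) (x : Fin n × Fin n) :
    ((x.1 : ℕ) = 0 ∧ (x.2 : ℕ) = 0) ↔ x = c0 hn := by
  constructor
  · rintro ⟨h1, h2⟩
    apply Prod.ext
    · exact Fin.ext h1
    · exact Fin.ext h2
  · intro h
    subst h
    exact ⟨rfl, rfl⟩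

/-- equality off the corner -/
noncomputable def off {d n : ℕ} (hn : 1 ≤ n) (p q : Fin n × Fin n → Fin d) : ℂ :=
  ∏ x ∈ univ.erase (c0 hn), if p x = q x then 1 else 0

lemma site1_eq {d n : ℕ} (hn : 1 ≤ n) (a : Matrix (Fin d) (Fin d) ℂ) (p q : Fin n × Fin n → Fin d) :
    site1 a n p q = a (p (c0 hn)) (q (c0 hn)) * off hn p q := by
  unfold site1 off
  rw [← Finset.mul_prod_erase univ _ (Finset.mem_univ (c0 hn))]
  rw [if_pos ((c0_iff hn _).2 rfl)]
  refine congrArg (fun z => a (p (c0 hn)) (q (c0 hn)) * z) ?_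
  refine Finset.prod_congr rfl fun x hx => ?_
  rw [if_neg]
  intro h
  exact (Finset.mem_erase.1 hx).1 ((c0_iff hn x).1 h)

lemma off_one {d n : ℕ} (hn : 1 ≤ n) (p q : Fin n × Fin n → Fin d)
    (h : ∀ x, x ≠ c0 hn → p x = q x) : off hn p q = 1 := by
  unfold off
  refine Finset.prod_eq_one fun x hx => ?_
  rw [if_pos (h x (Finset.mem_erase.1 hx).1)]

lemma off_zero {d n : ℕ} (hn : 1 ≤ n) (p q : Fin n × Fin n → Fin d)
    (h : ¬ ∀ x, x ≠ c0 hn → p x = q x) : off hn p q = 0 := by
  push Not at h
  obtain ⟨x, hx, hne⟩ := h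
  unfold off
  exact Finset.prod_eq_zero (Finset.mem_erase.2 ⟨hx, Finset.mem_univ x⟩) (if_neg hne)

lemma term_lin {d n L : ℕ} [NeZero L] (h : BoxOp d n) (c z : ℂ) (u : Site L) :
    term (c • h + z • 1) u = c • term h u + z • (1 : TorOp d L) := by
  classical
  ext s t
  simp only [Matrix.add_apply, Matrix.smul_apply, smul_eq_mul, term]
  by_cases hst : ∀ v, (∀ x : Fin n × Fin n, sh u x ≠ v) → s v = t v
  · rw [if_pos hst, if_pos hst]
    change c * h (fun x => s (sh u x)) (fun x => t (sh u x)) +
      z * (1 : BoxOp d n) (fun x => s (sh u x)) (fun x => t (sh u x)) = _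
    refine congrArg (fun w => c * h (fun x => s (sh u x)) (fun x => t (sh u x)) + z * w) ?_
    rw [Matrix.one_apply, Matrix.one_apply]
    by_cases he : s = t
    · subst he
      rw [if_pos rfl, if_pos rfl]
    · rw [if_neg he, if_neg]
      intro hh
      apply he
      funext v
      by_cases hv : ∃ x : Fin n × Fin n, sh u x = v
      · obtain ⟨x, hx⟩ := hv
        rw [← hx]
        exact congrFun hh x
      · push Not at hv
        exact hst v hv
  · rw [if_neg hst, if_neg hst]
    have he : s ≠ t := by
      intro he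
      apply hst
      intro v _
      rw [he]
    rw [Matrix.one_apply_ne he]
    ring

theorem main : SitS := by
  intro d _ n hn
  refine ⟨?_, ?_, ?_, ?_⟩
  · intro a b c z
    ext p q
    simp only [Matrix.add_apply, Matrix.smul_apply, smul_eq_mul, site1_eq hn]
    ring
  · ext p q
    rw [site1_eq hn]
    by_cases hpq : p = q
    · subst hpq
      rw [off_one hn p p (fun _ _ => rfl), Matrix.one_apply_eq, Matrix.one_apply_eq, mul_one]
    · rw [Matrix.one_apply_ne hpq]
      by_cases h0 : p (c0 hn) = q (c0 hn)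
      · rw [off_zero hn p q, mul_zero]
        intro h
        apply hpq
        funext x
        by_cases hx : x = c0 hn
        · rw [hx, h0]
        · exact h x hx
      · rw [Matrix.one_apply_ne h0, zero_mul]
  · intro α
    ext p q
    refine Eq.trans (site1_eq hn (fun s t => α (t - s)) p q) ?_
    unfold site
    by_cases h : ∀ x, x ≠ c0 hn → p x = q x
    · rw [off_one hn p q h, mul_one]
      symm
      rw [Finset.sum_eq_single (q (c0 hn) - p (c0 hn))]
      · rw [if_pos]
        intro x
        by_cases hx : x = c0 hn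
        · rw [if_pos ((c0_iff hn x).2 hx), hx]
          exact (add_sub_cancel _ _).symm
        · rw [if_neg (fun hh => hx ((c0_iff hn x).1 hh))]
          exact (h x hx).symm
      · intro c _ hc
        rw [if_neg]
        intro hh
        apply hc
        have h1 := hh (c0 hn)
        rw [if_pos ((c0_iff hn _).2 rfl)] at h1
        rw [h1]
        exact (add_sub_cancel_left _ _).symm
      · intro hh
        exact absurd (Finset.mem_univ _) hh
    · rw [off_zero hn p q h, mul_zero]
      symm
      refine Finset.sum_eq_zero fun c _ => ?_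
      rw [if_neg]
      intro hh
      apply h
      intro x hx
      have h1 := hh x
      rw [if_neg (fun hh => hx ((c0_iff hn x).1 hh))] at h1
      exact h1.symm
  · intro L _ _ h c z
    unfold ham
    rw [Finset.sum_congr rfl fun u _ => term_lin h c z u, Finset.sum_add_distrib, ← Finset.smul_sum,
      Finset.sum_const, Finset.card_univ, Fintype.card_prod, ZMod.card, ← Nat.cast_smul_eq_nsmul ℂ, smul_smul]
    refine congrArg (fun w => c • ∑ u : Site L, term h u + w • (1 : TorOp d L)) ?_
    push_cast
    ring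

end Pool.Agent.Q266.KG.ST
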