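import Pool.Agent.Q234.KG.Stm2
import Pool.Agent.Y70.PE.Region
import Pool.Agent.Y65.PE.Bound

set_option autoImplicit false

open scoped BigOperators ComplexConjugate
open Finset Pool.Agent.Y738.PE

namespace Pool.Agent.Q266.KG.NR

lemma nrm_nn {S : Type} [Fintype S] (f : S → ℂ) : 0 ≤ nrm f :=
  Finset.sum_nonneg fun s _ => sq_nonneg _

/-- the parallelogram law -/
lemma par {S : Type} [Fintype S] (Ψ χ : S → ℂ) (l : ℝ) :
    nrm (fun s => Ψ s + (l : ℂ) * χ s) + nrm (fun s => Ψ s - (l : ℂ) * χ s) =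
      2 * nrm Ψ + 2 * l ^ 2 * nrm χ := by
  unfold nrm
  rw [← Finset.sum_add_distrib, Finset.mul_sum, Finset.mul_sum, ← Finset.sum_add_distrib]
  refine Finset.sum_congr rfl fun s _ => ?_
  have h := parallelogram_law_with_norm ℂ (Ψ s) ((l : ℂ) * χ s)
  have h2 : ‖(l : ℂ) * χ s‖ ^ 2 = l ^ 2 * ‖χ s‖ ^ 2 := by
    rw [norm_mul, mul_pow, Complex.norm_real, Real.norm_eq_abs, sq_abs]
  nlinarith [h, h2]

lemma key {S I : Type} [Fintype S] [Fintype I] (f g : I → S) (c : I → ℂ) (X : (S → ℂ) → ℂ)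
    (hX : ∀ Φ : S → ℂ, X Φ = ∑ i, conj (Φ (f i)) * c i * Φ (g i)) (hb : ∀ Φ : S → ℂ, ‖X Φ‖ ≤ nrm Φ)
    (Ψ χ : S → ℂ) (ε : ℝ) (h0 : 0 < ε) (h1 : ε ≤ 1) (hΨ : nrm Ψ = 1) (hχ : nrm χ ≤ (ε / 8) ^ 2) :
    ‖X (fun s => Ψ s + χ s) - X Ψ‖ ≤ 17 / 64 * ε := by
  set l : ℝ := 8 / ε with hl
  have hlp : 0 < l := by positivity
  set T : ℂ := X (fun s => Ψ s + χ s) - X Ψ - X χ with hT
  have e1 : X (fun s => Ψ s + (l : ℂ) * χ s) - X (fun s => Ψ s - (l : ℂ) * χ s) =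
      2 * (l : ℂ) * T := by
    rw [hT]
    simp only [hX]
    rw [← Finset.sum_sub_distrib, ← Finset.sum_sub_distrib, ← Finset.sum_sub_distrib, Finset.mul_sum]
    refine Finset.sum_congr rfl fun i _ => ?_
    simp only [map_add, map_sub, map_mul, Complex.conj_ofReal]
    ring
  have e2 : ‖(2 : ℂ) * (l : ℂ) * T‖ = 2 * l * ‖T‖ := by
    rw [norm_mul, norm_mul, Complex.norm_real, Real.norm_eq_abs, abs_of_pos hlp]
    norm_num
  have e3 : 2 * l * ‖T‖ ≤ 4 := by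
    rw [← e2, ← e1]
    refine (norm_sub_le _ _).trans ((add_le_add (hb _) (hb _)).trans ?_)
    rw [par, hΨ]
    have h2 : l ^ 2 * nrm χ ≤ 1 := by
      calc l ^ 2 * nrm χ ≤ l ^ 2 * (ε / 8) ^ 2 := by
            exact mul_le_mul_of_nonneg_left hχ (sq_nonneg _)
        _ = 1 := by rw [hl]; field_simp
    linarith
  have e4 : ‖T‖ ≤ ε / 4 := by
    have h2 : 2 * l * ‖T‖ = 16 * ‖T‖ / ε := by rw [hl]; ring
    rw [h2, div_le_iff₀ h0] at e3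
    linarith
  have e5 : X (fun s => Ψ s + χ s) - X Ψ = T + X χ := by rw [hT]; ring
  rw [e5]
  refine (norm_add_le _ _).trans ?_
  have e6 : ‖X χ‖ ≤ ε / 64 := by
    refine (hb χ).trans (hχ.trans ?_)
    nlinarith
  linarith

lemma key_nrm {S : Type} [Fintype S] (Ψ χ : S → ℂ) (ε : ℝ) (h0 : 0 < ε) (h1 : ε ≤ 1)
    (hΨ : nrm Ψ = 1) (hχ : nrm χ ≤ (ε / 8) ^ 2) :
    |nrm (fun s => Ψ s + χ s) - 1| ≤ 17 / 64 * ε := by
  have h := key (S := S) (I := S) id id (fun _ => 1) (fun Φ => (nrm Φ : ℂ)) (by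
    intro Φ
    unfold nrm
    push_cast
    refine Finset.sum_congr rfl fun s _ => ?_
    rw [mul_one, id, mul_comm, Complex.mul_conj, Complex.normSq_eq_norm_sq]
    push_cast
    rfl) (by
    intro Φ
    rw [Complex.norm_real, Real.norm_eq_abs, abs_of_nonneg (nrm_nn Φ)]) Ψ χ ε h0 h1 hΨ hχ
  rw [← Complex.ofReal_sub, Complex.norm_real, Real.norm_eq_abs, hΨ] at h
  exact h

lemma key_expec {d L r : ℕ} [NeZero L] (hr : r ≤ L) (Ψ χ : Conf d L → ℂ) (v : Site L)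
    (B : BConf d r → BConf d r → ℂ) (hB : Contr B) (ε : ℝ) (h0 : 0 < ε) (h1 : ε ≤ 1)
    (hΨ : nrm Ψ = 1) (hχ : nrm χ ≤ (ε / 8) ^ 2) :
    ‖expec (fun s => Ψ s + χ s) v B - expec Ψ v B‖ ≤ 17 / 64 * ε := by
  refine key (S := Conf d L) (I := Conf d L × BConf d r) (fun i => i.1) (fun i => put i.1 v i.2)
    (fun i => B (box r i.1 v) i.2) (fun Φ => expec Φ v B) ?_ ?_ Ψ χ ε h0 h1 hΨ hχ
  · intro Φ
    rw [Fintype.sum_prod_type]
    rfl
  · intro Φ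
    exact Pool.Agent.Y65.PE.bound d L r hr Φ v B hB

lemma ti {d L : ℕ} [NeZero L] (Ψ : Conf d L → ℂ) (h : Pool.Agent.Y665.PE.TransInv Ψ) :
    Pool.Agent.Y738.PE.TransInv Ψ := by
  intro a
  obtain ⟨c, hc⟩ := h a
  exact ⟨c, fun s => congrFun hc s⟩

theorem main : Pool.Agent.Q234.KG.NearS := by
  intro d R _
  obtain ⟨r, a, _, hreg⟩ := Pool.Agent.Y70.PE.region d R
  refine ⟨r, ?_⟩
  intro L _ hL Ψ φ ε h0 h1 hΨ hT hn
  have hφ : φ = fun s => Ψ s + (φ s - Ψ s) := by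
    funext s
    ring
  have hN := key_nrm Ψ (fun s => φ s - Ψ s) ε h0 h1 hΨ hn
  rw [← hφ] at hN
  have hN1 := abs_le.1 hN
  have hpos : 0 < nrm φ := by linarith [hN1.1]
  refine ⟨hpos.ne', ?_⟩
  intro u v B hB
  obtain ⟨B', hB', hE⟩ := hreg B hB
  rw [hE L hL Ψ u, hE L hL φ v, hΨ, Complex.ofReal_one, div_one]
  set w : Site L := (v.1 + (a.1 : ZMod L), v.2 + (a.2 : ZMod L)) with hw
  rw [transInv_expec Ψ hΨ (ti Ψ hT) r _ B', ← transInv_expec Ψ hΨ (ti Ψ hT) r w B']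
  have hK := key_expec hL Ψ (fun s => φ s - Ψ s) w B' hB' ε h0 h1 hΨ hn
  rw [← hφ] at hK
  have hbd := Pool.Agent.Y65.PE.bound d L r hL φ w B' hB'
  have e1 : expec Ψ w B' - expec φ w B' / (nrm φ : ℂ) =
      -(expec φ w B' - expec Ψ w B') + expec φ w B' / (nrm φ : ℂ) * ((nrm φ - 1 : ℝ) : ℂ) := by
    have hc : (nrm φ : ℂ) ≠ 0 := by exact_mod_cast hpos.ne'
    push_cast
    field_simp
    ring
  rw [e1]
  refine (norm_add_le _ _).trans ?_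
  rw [norm_neg, norm_mul, norm_div, Complex.norm_real, Complex.norm_real, Real.norm_eq_abs,
    Real.norm_eq_abs, abs_of_pos hpos]
  have e2 : ‖expec φ w B'‖ / nrm φ ≤ 1 := (div_le_one hpos).2 hbd
  have e3 : ‖expec φ w B'‖ / nrm φ * |nrm φ - 1| ≤ 1 * (17 / 64 * ε) :=
    mul_le_mul e2 hN (abs_nonneg _) zero_le_one
  linarith

end Pool.Agent.Q266.KG.NR
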